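import Pool.Agent.H87.Ienv2

namespace Pool.Agent.Results.MP_b3c6e2_an.Yes

open Pool.Agent.H87.Ienv

theorem result (K : Type) [RCLike K] (X : Type) [NormedAddCommGroup X] [NormedSpace K X]
    [CompleteSpace X] (A B : Set (StrongDual K X)) (_hA : Convex ℝ A) (_hB : Convex ℝ B)
    (hAB : Convex ℝ (A ∪ B)) :
    Ienv (A ∪ B) = Ienv A ∪ Ienv B :=
  main hAB

end Pool.Agent.Results.MP_b3c6e2_an.Yes
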